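import Pool.Agent.H369Z.SCT.Defs

set_option linter.unusedSectionVars false

namespace Pool.Agent.H369Z.SCT

open scoped Classical

variable {n : ℕ} {F : Type} [Field F]

@[simp] lemma act_val (u v : UT n F) (y : SU n F) :
    (act u v y).val = u.val.val * y.val * v.val.val := rfl

@[simp] lemma sub1_val (g : UT n F) : (sub1 g).val = g.val.val - 1 := rfl

lemma val_mul (g h : UT n F) : (g * h).val.val = g.val.val * h.val.val := rfl

lemma val_one : (1 : UT n F).val.val = 1 := rfl

lemma val_mul_inv (g : UT n F) : g.val.val * (g⁻¹).val.val = 1 := by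
  rw [← val_mul, mul_inv_cancel, val_one]

lemma val_inv_mul (g : UT n F) : (g⁻¹).val.val * g.val.val = 1 := by
  rw [← val_mul, inv_mul_cancel, val_one]

lemma act_act (u v u' v' : UT n F) (y : SU n F) :
    act u v (act u' v' y) = act (u * u') (v' * v) y := by
  apply Subtype.ext
  simp only [act_val, val_mul, Matrix.mul_assoc]

lemma act_one (y : SU n F) : act 1 1 y = y := by
  apply Subtype.ext
  simp only [act_val, val_one, Matrix.mul_one, Matrix.one_mul]

lemma sub1_one : sub1 (1 : UT n F) = 0 := by
  apply Subtype.ext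
  simp only [sub1_val, val_one, sub_self]
  rfl

lemma sub1_inj : Function.Injective (sub1 : UT n F → SU n F) := by
  intro g h e
  have h1 := congrArg Subtype.val e
  simp only [sub1_val, sub_left_inj] at h1
  exact Subtype.ext (Units.ext h1)

lemma sub1_surj : Function.Surjective (sub1 : UT n F → SU n F) := by
  intro y
  have ht : Matrix.BlockTriangular (1 + y.val) id := by
    intro i j h
    have h' : j < i := h
    rw [Matrix.add_apply, Matrix.one_apply_ne h'.ne', y.2 i j h'.le, add_zero]
  have hd : ∀ i, (1 + y.val) i i = 1 := by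
    intro i
    rw [Matrix.add_apply, Matrix.one_apply_eq, y.2 i i le_rfl, add_zero]
  have hdet : (1 + y.val).det ≠ 0 := by
    rw [Matrix.det_of_upperTriangular ht]
    simp only [hd, Finset.prod_const_one]
    exact one_ne_zero
  refine ⟨⟨Matrix.GeneralLinearGroup.mkOfDetNeZero _ hdet, fun i j h => ht h, hd⟩, ?_⟩
  apply Subtype.ext
  change 1 + y.val - 1 = y.val
  rw [add_sub_cancel_left]

/-- `g ↦ g - 1` as a bijection. -/
noncomputable def sub1E : UT n F ≃ SU n F := Equiv.ofBijective sub1 ⟨sub1_inj, sub1_surj⟩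

lemma sub1_conj (w g : UT n F) : sub1 (w * g * w⁻¹) = act w w⁻¹ (sub1 g) := by
  apply Subtype.ext
  simp only [sub1_val, act_val, val_mul, Matrix.mul_sub, Matrix.sub_mul, Matrix.mul_one,
    val_mul_inv]

lemma sub1_inv_mul (k g : UT n F) : sub1 (k⁻¹ * g) = act k⁻¹ 1 (sub1 g - sub1 k) := by
  apply Subtype.ext
  simp only [sub1_val, act_val, val_mul, val_one, Matrix.mul_one, AddSubgroupClass.coe_sub,
    sub_sub_sub_cancel_right, Matrix.mul_sub, val_inv_mul]

lemma mem_orbit_self (l : Module.Dual F (SU n F)) : l ∈ orbit l :=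
  ⟨1, 1, by ext y; simp only [LinearMap.comp_apply, act_one]⟩

lemma orbit_act {l m : Module.Dual F (SU n F)} (h : m ∈ orbit l) (u v : UT n F) :
    m ∘ₗ act u v ∈ orbit l := by
  obtain ⟨u', v', rfl⟩ := h
  refine ⟨u' * u, v * v', ?_⟩
  ext y
  simp only [LinearMap.comp_apply, act_act]

lemma orbit_symm {l m : Module.Dual F (SU n F)} (h : m ∈ orbit l) : l ∈ orbit m := by
  obtain ⟨u, v, rfl⟩ := h
  refine ⟨u⁻¹, v⁻¹, ?_⟩
  ext y
  simp only [LinearMap.comp_apply, act_act, mul_inv_cancel, inv_mul_cancel, act_one]

lemma orbit_trans {l m k : Module.Dual F (SU n F)} (h : m ∈ orbit l) (h' : k ∈ orbit m) :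
    k ∈ orbit l := by
  obtain ⟨u, v, rfl⟩ := h'
  exact orbit_act h u v

lemma orbit_eq {l m : Module.Dual F (SU n F)} (h : m ∈ orbit l) : orbit m = orbit l :=
  Set.Subset.antisymm (fun _ hk => orbit_trans h hk) (fun _ hk => orbit_trans (orbit_symm h) hk)

lemma act_mem_orbit_iff {l m : Module.Dual F (SU n F)} (u v : UT n F) :
    m ∘ₗ act u v ∈ orbit l ↔ m ∈ orbit l := by
  refine ⟨fun h => ?_, fun h => orbit_act h u v⟩
  have := orbit_act h u⁻¹ v⁻¹
  convert this using 1
  ext y
  simp only [LinearMap.comp_apply, act_act, mul_inv_cancel, inv_mul_cancel, act_one]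

/-- precomposition with `act u v` as a bijection -/
def dualE (u v : UT n F) : Module.Dual F (SU n F) ≃ Module.Dual F (SU n F) where
  toFun m := m ∘ₗ act u v
  invFun m := m ∘ₗ act u⁻¹ v⁻¹
  left_inv m := by
    ext y
    simp only [LinearMap.comp_apply, act_act, mul_inv_cancel, inv_mul_cancel, act_one]
  right_inv m := by
    ext y
    simp only [LinearMap.comp_apply, act_act, mul_inv_cancel, inv_mul_cancel, act_one]

/-- `act u v` as a bijection -/
def actE (u v : UT n F) : SU n F ≃ SU n F where
  toFun y := act u v y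
  invFun y := act u⁻¹ v⁻¹ y
  left_inv y := by simp only [act_act, mul_inv_cancel, inv_mul_cancel, act_one]
  right_inv y := by simp only [act_act, mul_inv_cancel, inv_mul_cancel, act_one]

lemma mem_superclass_self (x : UT n F) : x ∈ superclass x := ⟨1, 1, (act_one _).symm⟩

lemma superclass_symm {x g : UT n F} (h : g ∈ superclass x) : x ∈ superclass g := by
  obtain ⟨u, v, e⟩ := h
  refine ⟨u⁻¹, v⁻¹, ?_⟩
  rw [e, act_act, inv_mul_cancel, mul_inv_cancel, act_one]

lemma superclass_trans {x g h : UT n F} (h1 : g ∈ superclass x) (h2 : h ∈ superclass g) :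
    h ∈ superclass x := by
  obtain ⟨u, v, e⟩ := h1
  obtain ⟨u', v', e'⟩ := h2
  exact ⟨u' * u, v * v', by rw [e', e, act_act]⟩

lemma superclass_eq {x g : UT n F} (h : g ∈ superclass x) : superclass g = superclass x :=
  Set.Subset.antisymm (fun _ hk => superclass_trans h hk)
    (fun _ hk => superclass_trans (superclass_symm h) hk)

lemma superclass_one : superclass (1 : UT n F) = {1} := by
  ext g
  constructor
  · rintro ⟨u, v, e⟩
    rw [sub1_one, map_zero, ← sub1_one] at e
    exact sub1_inj e
  · rintro rfl
    exact mem_superclass_self 1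

variable [Finite F]

noncomputable instance : Fintype (SU n F) := Fintype.ofFinite _

noncomputable instance : Fintype (UT n F) := Fintype.ofFinite _

instance : Finite (Module.Dual F (SU n F)) :=
  Finite.of_injective (fun m : Module.Dual F (SU n F) => (m : SU n F → F)) DFunLike.coe_injective

noncomputable instance : Fintype (Module.Dual F (SU n F)) := Fintype.ofFinite _

lemma card_SU : Fintype.card (SU n F) = Fintype.card (UT n F) := (Fintype.card_congr sub1E).symm

lemma card_dual : Fintype.card (Module.Dual F (SU n F)) = Fintype.card (UT n F) := by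
  rw [← card_SU, ← Nat.card_eq_fintype_card, ← Nat.card_eq_fintype_card,
    Module.natCard_eq_pow_finrank (K := F), Module.natCard_eq_pow_finrank (K := F) (V := SU n F),
    Subspace.dual_finrank_eq]

lemma sum_U (f : SU n F → ℂ) : ∑ g : UT n F, f (sub1 g) = ∑ y, f y :=
  Fintype.sum_equiv sub1E _ _ (fun _ => rfl)

variable {theta : AddChar F ℂ}

lemma sum_SU (ht : theta ≠ 1) (m : Module.Dual F (SU n F)) :
    ∑ y : SU n F, theta (m y) = if m = 0 then (Fintype.card (UT n F) : ℂ) else 0 := by
  have h := AddChar.sum_eq_ite (theta.compAddMonoidHom m.toAddMonoidHom)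
  simp only [AddChar.compAddMonoidHom_apply, LinearMap.toAddMonoidHom_coe] at h
  rw [h, card_SU]
  congr 1
  apply propext
  constructor
  · intro h0
    by_contra hm
    apply ht
    ext a
    obtain ⟨y, hy⟩ := (LinearMap.surjective_of_ne_zero hm) a
    have := DFunLike.congr_fun h0 y
    simp only [AddChar.compAddMonoidHom_apply, LinearMap.toAddMonoidHom_coe, hy] at this
    rw [this]
    rfl
  · rintro rfl
    ext y
    simp

lemma sum_dual (ht : theta ≠ 1) (y : SU n F) :
    ∑ m : Module.Dual F (SU n F), theta (m y) =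
      if y = 0 then (Fintype.card (UT n F) : ℂ) else 0 := by
  have h := AddChar.sum_eq_ite (theta.compAddMonoidHom (Module.Dual.eval F (SU n F) y).toAddMonoidHom)
  simp only [AddChar.compAddMonoidHom_apply, LinearMap.toAddMonoidHom_coe,
    Module.Dual.eval_apply] at h
  rw [h, card_dual]
  congr 1
  apply propext
  constructor
  · intro h0
    by_contra hy
    apply ht
    ext a
    have hne : Module.Dual.eval F (SU n F) y ≠ 0 := by
      intro h1
      apply hy
      exact (Module.eval_apply_eq_zero_iff F y).mp h1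
    obtain ⟨m, hm⟩ := (LinearMap.surjective_of_ne_zero hne) a
    have := DFunLike.congr_fun h0 m
    simp only [AddChar.compAddMonoidHom_apply, LinearMap.toAddMonoidHom_coe, hm] at this
    rw [this]
    rfl
  · rintro rfl
    ext m
    simp

/-- the supercharacter as a function on the algebra -/
noncomputable def phi (theta : AddChar F ℂ) (l : Module.Dual F (SU n F)) (y : SU n F) : ℂ :=
  ∑ m : Module.Dual F (SU n F), if m ∈ orbit l then theta (m y) else 0

lemma superchar_eq (l : Module.Dual F (SU n F)) (g : UT n F) :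
    superchar theta l g = phi theta l (sub1 g) := by
  unfold superchar phi
  rw [finsum_mem_eq_finite_toFinset_sum _ (Set.toFinite _), ← Finset.sum_filter]
  apply Finset.sum_congr _ (fun _ _ => rfl)
  ext m
  simp

lemma phi_act (l : Module.Dual F (SU n F)) (u v : UT n F) (y : SU n F) :
    phi theta l (act u v y) = phi theta l y := by
  unfold phi
  refine Fintype.sum_equiv (dualE u v) _ _ fun m => ?_
  change _ = if m ∘ₗ act u v ∈ orbit l then theta ((m ∘ₗ act u v) y) else 0
  rw [act_mem_orbit_iff]
  rfl

lemma card_ne : (Fintype.card (UT n F) : ℂ) ≠ 0 := by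
  exact_mod_cast Fintype.card_ne_zero

end Pool.Agent.H369Z.SCT
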