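import Mathlib

/-!
Supercharacter theories (Diaconis, Isaacs) and the theory of Andre for the unitriangular group.
-/

namespace Pool.Agent.H369Z.SCT

/-- `chi` is an irreducible complex character of `G`. -/
def IsIrr {G : Type} [Group G] (chi : G → ℂ) : Prop :=
  ∃ (V : Type) (_ : AddCommGroup V) (_ : Module ℂ V) (_ : FiniteDimensional ℂ V)
    (rho : Representation ℂ G V), rho.IsIrreducible ∧ chi = rho.character

/-- The character `sigma X = ∑_{psi ∈ X} psi(1) psi`. -/
noncomputable def sigma {G : Type} [Group G] (X : Set (G → ℂ)) (g : G) : ℂ :=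
  ∑ᶠ psi ∈ X, psi 1 * psi g

/-- `(XX, KK)` is a supercharacter theory of the finite group `G`: `XX` is a partition of the set
of irreducible characters, `KK` is a partition of `G`, they have the same number of blocks, `{1}`
is a block of `KK`, and each `sigma X`, `X ∈ XX`, is constant on each block of `KK`. -/
structure IsSCT {G : Type} [Group G] (XX : Set (Set (G → ℂ))) (KK : Set (Set G)) : Prop where
  X_nonempty : ∀ X ∈ XX, X.Nonempty
  X_irr : ∀ X ∈ XX, ∀ psi ∈ X, IsIrr psi
  X_cover : ∀ psi : G → ℂ, IsIrr psi → ∃! X, X ∈ XX ∧ psi ∈ X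
  K_nonempty : ∀ K ∈ KK, K.Nonempty
  K_cover : ∀ g : G, ∃! K, K ∈ KK ∧ g ∈ K
  card_eq : XX.ncard = KK.ncard
  one_mem : ({1} : Set G) ∈ KK
  const : ∀ X ∈ XX, ∀ K ∈ KK, ∀ g ∈ K, ∀ h ∈ K, sigma X g = sigma X h

variable (n : ℕ) (F : Type) [Field F]

/-- The group `U_n(F)` of upper unitriangular matrices. -/
def UT : Subgroup (Matrix.GeneralLinearGroup (Fin n) F) where
  carrier := {g | (∀ i j, j < i → g.val i j = 0) ∧ ∀ i, g.val i i = 1}
  one_mem' := by
    refine ⟨fun i j h => ?_, fun i => ?_⟩
    · exact Matrix.one_apply_ne h.ne'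
    · exact Matrix.one_apply_eq i
  mul_mem' := by
    rintro g h ⟨hg, hg1⟩ ⟨hh, hh1⟩
    refine ⟨fun i j hij => ?_, fun i => ?_⟩
    · rw [Units.val_mul, Matrix.mul_apply]
      refine Finset.sum_eq_zero fun k _ => ?_
      rcases lt_or_ge k i with hk | hk
      · rw [hg i k hk, zero_mul]
      · rw [hh k j (lt_of_lt_of_le hij hk), mul_zero]
    · rw [Units.val_mul, Matrix.mul_apply, Finset.sum_eq_single i, hg1, hh1, one_mul]
      · intro k _ hk
        rcases lt_or_gt_of_ne hk with hk | hk
        · rw [hg i k hk, zero_mul]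
        · rw [hh k i hk, mul_zero]
      · intro hi
        exact absurd (Finset.mem_univ i) hi
  inv_mem' := by
    rintro g ⟨hg, hg1⟩
    have h1 : Matrix.BlockTriangular g.val id := fun i j h => hg i j h
    letI : Invertible g.val := g.invertible
    have h2 : Matrix.BlockTriangular (g⁻¹).val id := by
      rw [Matrix.coe_units_inv]
      exact Matrix.blockTriangular_inv_of_blockTriangular h1
    refine ⟨fun i j h => h2 h, fun i => ?_⟩
    have h3 : (g.val * (g⁻¹).val) i i = 1 := by
      rw [← Units.val_mul, mul_inv_cancel, Units.val_one, Matrix.one_apply_eq]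
    rw [Matrix.mul_apply, Finset.sum_eq_single i, hg1, one_mul] at h3
    · exact h3
    · intro k _ hk
      rcases lt_or_gt_of_ne hk with hk | hk
      · rw [hg i k hk, zero_mul]
      · rw [h2 hk, mul_zero]
    · intro hi
      exact absurd (Finset.mem_univ i) hi

/-- The space of strictly upper triangular matrices. -/
def SU : Submodule F (Matrix (Fin n) (Fin n) F) where
  carrier := {y | ∀ i j, j ≤ i → y i j = 0}
  zero_mem' := fun _ _ _ => rfl
  add_mem' := by
    intro y z hy hz i j h
    rw [Matrix.add_apply, hy i j h, hz i j h, add_zero]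
  smul_mem' := by
    intro c y hy i j h
    rw [Matrix.smul_apply, hy i j h, smul_zero]

variable {n F}

/-- The strictly upper triangular matrix `g - 1`. -/
def sub1 (g : UT n F) : SU n F :=
  ⟨g.val.val - 1, by
    intro i j h
    rcases h.eq_or_lt with h | h
    · subst h
      rw [Matrix.sub_apply, g.2.2, Matrix.one_apply_eq, sub_self]
    · rw [Matrix.sub_apply, g.2.1 i j h, Matrix.one_apply_ne h.ne', sub_self]⟩

/-- The map `y ↦ u y v` on strictly upper triangular matrices. -/
def act (u v : UT n F) : SU n F →ₗ[F] SU n F where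
  toFun y := ⟨u.val.val * y.val * v.val.val, by
    intro i j h
    rw [Matrix.mul_apply]
    refine Finset.sum_eq_zero fun l _ => ?_
    rcases lt_or_ge j l with hl | hl
    · rw [v.2.1 l j hl, mul_zero]
    · rw [Matrix.mul_apply, Finset.sum_eq_zero, zero_mul]
      intro k _
      rcases lt_or_ge k i with hk | hk
      · rw [u.2.1 i k hk, zero_mul]
      · rw [y.2 k l (hl.trans (h.trans hk)), mul_zero]⟩
  map_add' y z := by
    apply Subtype.ext
    simp [Matrix.mul_add, Matrix.add_mul]
  map_smul' c y := by
    apply Subtype.ext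
    simp

/-- The superclass of `x`: all `g` with `g - 1 ∈ U (x - 1) U`. -/
def superclass (x : UT n F) : Set (UT n F) := {g | ∃ u v : UT n F, sub1 g = act u v (sub1 x)}

/-- The two-sided orbit `U l U` of a functional `l`. -/
def orbit (l : Module.Dual F (SU n F)) : Set (Module.Dual F (SU n F)) :=
  {m | ∃ u v : UT n F, m = l ∘ₗ act u v}

/-- The supercharacter `g ↦ ∑_{m ∈ U l U} theta (m (g - 1))`. -/
noncomputable def superchar (theta : AddChar F ℂ) (l : Module.Dual F (SU n F)) (g : UT n F) : ℂ :=
  ∑ᶠ m ∈ orbit l, theta (m (sub1 g))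

/-- The irreducible constituents of the supercharacter indexed by `l`. -/
def constituents (theta : AddChar F ℂ) (l : Module.Dual F (SU n F)) : Set (UT n F → ℂ) :=
  {psi | IsIrr psi ∧ ∑ᶠ g : UT n F, superchar theta l g * psi g⁻¹ ≠ 0}

/-- The single-box functional `y ↦ a * y i j`. -/
def box (i j : Fin n) (a : F) : Module.Dual F (SU n F) where
  toFun y := a * y.val i j
  map_add' y z := by simp [mul_add]
  map_smul' c y := by simp [mul_left_comm]

/-- The partition `XX` contains every single-box supercharacter as an irreducible character: for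
`i < j` and `a ≠ 0` some positive multiple `chi` of the supercharacter of the box is an irreducible
character and `{chi}` is a block. -/
def ContainsBoxes (theta : AddChar F ℂ) (XX : Set (Set (UT n F → ℂ))) : Prop :=
  ∀ (i j : Fin n) (a : F), i < j → a ≠ 0 → ∃ chi : UT n F → ℂ, IsIrr chi ∧ {chi} ∈ XX ∧
    ∃ c : ℝ, 0 < c ∧ ∀ g, chi g = c * superchar theta (box i j a) g

end Pool.Agent.H369Z.SCT
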