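import Pool.Agent.H369Z.SCT.Theory

set_option linter.unusedSectionVars false

namespace Pool.Agent.H369Z.SCT

open scoped Classical
open Pool.Agent.Helper884.IC

variable {n : ℕ} {F : Type} [Field F]

lemma box_apply (i j : Fin n) (a : F) (y : SU n F) : box i j a y = a * y.val i j := rfl

lemma exists_one_add (z : SU n F) : ∃ w : UT n F, w.val.val = 1 + z.val := by
  obtain ⟨w, hw⟩ := sub1_surj z
  refine ⟨w, ?_⟩
  rw [← hw, sub1_val, add_sub_cancel]

/-- The coadjoint action is transitive on the two-sided orbit of a box. -/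
lemma box_conj (i j : Fin n) (a : F) {m : Module.Dual F (SU n F)} (hm : m ∈ orbit (box i j a)) :
    ∃ w : UT n F, m = box i j a ∘ₗ act w w⁻¹ := by
  obtain ⟨u, v, rfl⟩ := hm
  set s : UT n F := u * v with hs
  let z : SU n F := ⟨Matrix.of fun k l => if l = j ∧ i < k then (sub1 s).val k j else 0, by
    intro k l h
    simp only [Matrix.of_apply]
    split_ifs with h1
    · exact (sub1 s).2 k j (h1.1 ▸ h)
    · rfl⟩
  obtain ⟨t, ht⟩ := exists_one_add z
  have h1 : ∀ y : SU n F, (act t⁻¹ t y).val i j = (act 1 s y).val i j := by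
    intro y
    have h2 : (t.val.val * (act t⁻¹ t y).val) i j = (act t⁻¹ t y).val i j := by
      rw [ht, Matrix.add_mul, Matrix.one_mul, Matrix.add_apply, Matrix.mul_apply,
        Finset.sum_eq_zero, add_zero]
      intro k _
      have : z.val i k = 0 := by simp [z]
      rw [this, zero_mul]
    rw [← h2, act_val, act_val, ← Matrix.mul_assoc, ← Matrix.mul_assoc, val_mul_inv, val_one,
      Matrix.one_mul, Matrix.mul_apply, Matrix.mul_apply]
    refine Finset.sum_congr rfl fun l _ => ?_
    rcases le_or_gt l i with hl | hl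
    · rw [y.2 i l hl, zero_mul, zero_mul]
    · congr 1
      rw [ht, Matrix.add_apply]
      have : z.val l j = (sub1 s).val l j := by simp [z, hl]
      rw [this, sub1_val, Matrix.sub_apply, add_sub_cancel]
  refine ⟨t⁻¹ * u, ?_⟩
  ext y
  simp only [LinearMap.comp_apply, box_apply]
  congr 1
  have h3 := h1 (act u u⁻¹ y)
  rw [act_act, act_act, one_mul, hs, inv_mul_cancel_left] at h3
  rw [← h3, mul_inv_rev, inv_inv]

/-- At most one nonzero entry in each row and in each column, among the pivots in the first `m`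
columns. -/
def Rook (m : ℕ) (y : SU n F) : Prop :=
  ∀ i j : Fin n, j.val < m → y.val i j ≠ 0 →
    (∀ l, l ≠ j → y.val i l = 0) ∧ ∀ k, k ≠ i → y.val k j = 0

lemma rook_step (m : ℕ) (y : SU n F) (hy : Rook m y) :
    ∃ u v : UT n F, Rook (m + 1) (act u v y) := by
  by_cases hm : m < n
  swap
  · refine ⟨1, 1, ?_⟩
    rw [act_one]
    intro i j hj
    exact hy i j (by have := j.2; omega)
  set c : Fin n := ⟨m, hm⟩ with hc
  by_cases h0 : ∀ k, y.val k c = 0
  · refine ⟨1, 1, ?_⟩
    rw [act_one]
    intro i j hj hij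
    by_cases hjc : j = c
    · exact absurd (hjc ▸ h0 i) hij
    · refine hy i j ?_ hij
      have : j.val ≠ m := fun h => hjc (Fin.ext h)
      omega
  push Not at h0
  obtain ⟨r, hr, hmax⟩ := Finset.exists_max_image (Finset.univ.filter fun k => y.val k c ≠ 0) id
    (by obtain ⟨k, hk⟩ := h0; exact ⟨k, by simp [hk]⟩)
  have hp : y.val r c ≠ 0 := (Finset.mem_filter.mp hr).2
  have hbelow : ∀ k, r < k → y.val k c = 0 := by
    intro k hk
    by_contra h
    exact absurd (hmax k (by simp [h])) (not_le.mpr hk)
  have hleft : ∀ l, l < c → y.val r l = 0 := by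
    intro l hl
    by_contra h
    exact hp ((hy r l hl h).1 c hl.ne')
  set p := y.val r c with hpdef
  let zu : SU n F := ⟨Matrix.of fun k l => if l = r ∧ k ≠ r then -(y.val k c / p) else 0, by
    intro k l h
    simp only [Matrix.of_apply]
    split_ifs with h1
    · rw [hbelow k (lt_of_le_of_ne (h1.1 ▸ h) h1.2.symm), zero_div, neg_zero]
    · rfl⟩
  let zv : SU n F := ⟨Matrix.of fun k l => if k = c ∧ l ≠ c then -(y.val r l / p) else 0, by
    intro k l h
    simp only [Matrix.of_apply]
    split_ifs with h1
    · rw [hleft l (lt_of_le_of_ne (h1.1 ▸ h) h1.2), zero_div, neg_zero]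
    · rfl⟩
  obtain ⟨u, hu⟩ := exists_one_add zu
  obtain ⟨v, hv⟩ := exists_one_add zv
  have huy : ∀ k l, (u.val.val * y.val) k l =
      if k = r then y.val r l else y.val k l - y.val k c / p * y.val r l := by
    intro k l
    rw [hu, Matrix.add_mul, Matrix.one_mul, Matrix.add_apply, Matrix.mul_apply,
      Finset.sum_eq_single r]
    · by_cases hk : k = r
      · simp [zu, hk]
      · simp [zu, hk, sub_eq_add_neg]
    · intro b _ hb
      simp [zu, hb]
    · intro h
      exact absurd (Finset.mem_univ _) h
  have hall : ∀ k l, (act u v y).val k l =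
      if k = r then (if l = c then p else 0) else y.val k l - y.val k c / p * y.val r l := by
    intro k l
    rw [act_val, hv, Matrix.mul_add, Matrix.mul_one, Matrix.add_apply,
      Matrix.mul_apply (N := zv.val), Finset.sum_eq_single c]
    · rw [huy, huy]
      by_cases hk : k = r
      · by_cases hl : l = c
        · simp [zv, hk, hl, hpdef]
        · simp only [zv, hk, hl, if_true, if_false, Matrix.of_apply, true_and, ne_eq,
            not_false_eq_true]
          rw [← hpdef]
          field_simp
          ring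
      · simp only [hk, if_false]
        rw [← hpdef, div_mul_cancel₀ _ hp, sub_self, zero_mul, add_zero]
    · intro b _ hb
      simp [zv, hb]
    · intro h
      exact absurd (Finset.mem_univ _) h
  have hcol : ∀ k, k ≠ r → (act u v y).val k c = 0 := by
    intro k hk
    rw [hall, if_neg hk, ← hpdef, div_mul_cancel₀ _ hp, sub_self]
  have hrow : ∀ l, l ≠ c → (act u v y).val r l = 0 := by
    intro l hl
    rw [hall, if_pos rfl, if_neg hl]
  refine ⟨u, v, fun i j hj hij => ?_⟩
  by_cases hjc : j = c
  · subst hjc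
    have hi : i = r := by
      by_contra h
      exact hij (hcol i h)
    subst hi
    exact ⟨hrow, hcol⟩
  · have hjm : j.val < m := by
      have : j.val ≠ m := fun h => hjc (Fin.ext h)
      omega
    have hi : i ≠ r := by
      rintro rfl
      exact hij (hrow j hjc)
    have hrj : y.val r j = 0 := hleft j hjm
    rw [hall, if_neg hi, hrj, mul_zero, sub_zero] at hij
    obtain ⟨h1, h2⟩ := hy i j hjm hij
    refine ⟨fun l hl => ?_, fun k hk => ?_⟩
    · rw [hall, if_neg hi, h1 l hl, h1 c (Ne.symm hjc), zero_div, zero_mul, sub_zero]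
    · by_cases hkr : k = r
      · rw [hkr]
        exact hrow j hjc
      · rw [hall, if_neg hkr, h2 k hk, hrj, mul_zero, sub_zero]

lemma exists_rook (m : ℕ) (y : SU n F) : ∃ u v : UT n F, Rook m (act u v y) := by
  induction m with
  | zero => exact ⟨1, 1, fun i j hj => absurd hj (Nat.not_lt_zero _)⟩
  | succ m ih =>
    obtain ⟨u, v, h⟩ := ih
    obtain ⟨u', v', h'⟩ := rook_step m _ h
    rw [act_act] at h'
    exact ⟨_, _, h'⟩

/-- the entry `(i, j)` of `u y v` only depends on the entries of `y` in the rows `≥ i` and the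
columns `≤ j` -/
lemma act_entry (u v : UT n F) (i j : Fin n) (y : SU n F)
    (h : ∀ k l, i ≤ k → l ≤ j → y.val k l = 0) : (act u v y).val i j = 0 := by
  rw [act_val, Matrix.mul_apply]
  refine Finset.sum_eq_zero fun l _ => ?_
  rcases lt_or_ge j l with hl | hl
  · rw [v.2.1 l j hl, mul_zero]
  · rw [Matrix.mul_apply, Finset.sum_eq_zero, zero_mul]
    intro k _
    rcases lt_or_ge k i with hk | hk
    · rw [u.2.1 i k hk, zero_mul]
    · rw [h k l hk hl, mul_zero]

/-- if only the corner entry is nonzero in the rectangle, it is preserved -/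
lemma act_corner (u v : UT n F) (i j : Fin n) (y : SU n F)
    (h : ∀ k l, i ≤ k → l ≤ j → ¬ (k = i ∧ l = j) → y.val k l = 0) :
    (act u v y).val i j = y.val i j := by
  rw [act_val, Matrix.mul_apply, Finset.sum_eq_single j, v.2.2, mul_one, Matrix.mul_apply,
    Finset.sum_eq_single i, u.2.2, one_mul]
  · intro k _ hk
    rcases lt_or_ge k i with hk' | hk'
    · rw [u.2.1 i k hk', zero_mul]
    · rw [h k j hk' le_rfl (fun h1 => hk h1.1), mul_zero]
  · intro h
    exact absurd (Finset.mem_univ _) h
  · intro l _ hl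
    rcases lt_or_ge j l with hl' | hl'
    · rw [v.2.1 l j hl', mul_zero]
    · rw [Matrix.mul_apply, Finset.sum_eq_zero, zero_mul]
      intro k _
      rcases lt_or_ge k i with hk | hk
      · rw [u.2.1 i k hk, zero_mul]
      · rw [h k l hk hl' (fun h1 => hl h1.2), mul_zero]
  · intro h
    exact absurd (Finset.mem_univ _) h

variable [Finite F] {theta : AddChar F ℂ}

lemma phi_shift (i j : Fin n) (a : F) (x y : SU n F)
    (h : ∀ k l, i ≤ k → l ≤ j → ¬ (k = i ∧ l = j) → x.val k l = y.val k l) :
    phi theta (box i j a) x = theta (a * (x.val i j - y.val i j)) * phi theta (box i j a) y := by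
  unfold phi
  rw [Finset.mul_sum]
  refine Finset.sum_congr rfl fun m _ => ?_
  split_ifs with hm
  · obtain ⟨u, v, rfl⟩ := hm
    rw [← AddChar.map_add_eq_mul]
    congr 1
    have h1 := act_corner u v i j (x - y) (fun k l hk hl hkl => by
      rw [AddSubgroupClass.coe_sub, Matrix.sub_apply, h k l hk hl hkl, sub_self])
    rw [map_sub, AddSubgroupClass.coe_sub, Matrix.sub_apply, AddSubgroupClass.coe_sub,
      Matrix.sub_apply] at h1
    simp only [LinearMap.comp_apply, box_apply]
    rw [← h1]
    ring
  · rw [mul_zero]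

/-- left multiplication by a strictly upper triangular matrix -/
def lmul (x : SU n F) : SU n F →ₗ[F] SU n F where
  toFun z := ⟨z.val * x.val, by
    intro i j h
    rw [Matrix.mul_apply]
    refine Finset.sum_eq_zero fun k _ => ?_
    rcases le_or_gt k i with hk | hk
    · rw [z.2 i k hk, zero_mul]
    · rw [x.2 k j (h.trans hk.le), mul_zero]⟩
  map_add' y z := by
    apply Subtype.ext
    simp [Matrix.add_mul]
  map_smul' c y := by
    apply Subtype.ext
    simp

lemma lmul_val (x z : SU n F) : (lmul x z).val = z.val * x.val := rfl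

lemma phi_ne (ht : theta ≠ 1) (i j : Fin n) (a : F) (x : SU n F)
    (hrow : ∀ l, l ≤ j → x.val i l = 0) (hcol : ∀ k, i ≤ k → x.val k j = 0) :
    phi theta (box i j a) x ≠ 0 := by
  have h1 : (Fintype.card (UT n F) : ℂ) * phi theta (box i j a) x =
      ∑ u : UT n F, phi theta (box i j a) (act u 1 x) := by
    simp only [phi_act]
    simp
  have h2 : ∀ u : UT n F, act u 1 x = x + lmul x (sub1 u) := by
    intro u
    apply Subtype.ext
    simp [lmul_val, val_one, Matrix.sub_mul]
  have h3 : ∀ m ∈ orbit (box i j a), m ∘ₗ lmul x = 0 → m x = 0 := by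
    rintro _ ⟨u, v, rfl⟩ h
    have h4 := LinearMap.congr_fun h (sub1 u⁻¹)
    have h5 : lmul x (sub1 u⁻¹) = act u⁻¹ 1 x - x := by rw [h2, add_sub_cancel_left]
    rw [LinearMap.comp_apply, h5, map_sub, LinearMap.zero_apply, sub_eq_zero] at h4
    rw [← h4, LinearMap.comp_apply, act_act, mul_inv_cancel, one_mul, box_apply, act_val, val_one,
      Matrix.one_mul, Matrix.mul_apply, Finset.sum_eq_zero, mul_zero]
    intro l _
    rcases lt_or_ge j l with hl | hl
    · rw [v.2.1 l j hl, mul_zero]
    · rw [hrow l hl, zero_mul]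
  have h6 : ∑ u : UT n F, phi theta (box i j a) (act u 1 x) =
      ∑ m : Module.Dual F (SU n F), if m ∈ orbit (box i j a) ∧ m ∘ₗ lmul x = 0 then
        (Fintype.card (UT n F) : ℂ) else 0 := by
    simp only [h2]
    unfold phi
    rw [Finset.sum_comm]
    refine Finset.sum_congr rfl fun m _ => ?_
    by_cases hm : m ∈ orbit (box i j a)
    · simp only [hm, if_true, true_and, map_add, AddChar.map_add_eq_mul]
      rw [← Finset.mul_sum, sum_U (fun z => theta (m (lmul x z)))]
      have h7 := sum_SU ht (m ∘ₗ lmul x)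
      simp only [LinearMap.comp_apply] at h7
      rw [h7]
      split_ifs with h8
      · rw [h3 m hm h8, AddChar.map_zero_eq_one, one_mul]
      · rw [mul_zero]
    · simp [hm]
  intro h0
  rw [h0, mul_zero, h6, ← Finset.sum_filter, Finset.sum_const, nsmul_eq_mul] at h1
  refine mul_ne_zero ?_ card_ne h1.symm
  have h9 : box i j a ∘ₗ lmul x = 0 := by
    ext z
    rw [LinearMap.comp_apply, box_apply, lmul_val, Matrix.mul_apply, Finset.sum_eq_zero, mul_zero,
      LinearMap.zero_apply]
    intro k _
    rcases le_or_gt k i with hk | hk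
    · rw [z.2 i k hk, zero_mul]
    · rw [hcol k hk.le, mul_zero]
  exact_mod_cast (Finset.card_pos.mpr ⟨box i j a, by simp [mem_orbit_self, h9]⟩).ne'

lemma rook_eq (ht : theta ≠ 1) (x y : SU n F) (hx : Rook n x) (hy : Rook n y)
    (h : ∀ (i j : Fin n) (a : F), i < j → a ≠ 0 →
      phi theta (box i j a) x = phi theta (box i j a) y) : x = y := by
  have key : ∀ d : ℕ, ∀ i j : Fin n, j.val - i.val = d → x.val i j = y.val i j := by
    intro d
    induction d using Nat.strong_induction_on with
    | _ d ih =>
      intro i j hd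
      rcases le_or_gt j i with hij | hij
      · rw [x.2 i j hij, y.2 i j hij]
      have hin : ∀ k l, i ≤ k → l ≤ j → ¬ (k = i ∧ l = j) → x.val k l = y.val k l := by
        intro k l hk hl hkl
        refine ih (l.val - k.val) ?_ k l rfl
        have e1 : i.val ≤ k.val := hk
        have e2 : l.val ≤ j.val := hl
        have e3 : i.val < j.val := hij
        have e4 : ¬ (k.val = i.val ∧ l.val = j.val) := fun h1 => hkl ⟨Fin.ext h1.1, Fin.ext h1.2⟩
        omega
      by_cases hA : ∃ l, l < j ∧ x.val i l ≠ 0
      · obtain ⟨l, hl, hl0⟩ := hA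
        have hl1 : y.val i l ≠ 0 := hin i l le_rfl hl.le (fun h1 => hl.ne h1.2) ▸ hl0
        rw [(hx i l l.2 hl0).1 j hl.ne', (hy i l l.2 hl1).1 j hl.ne']
      by_cases hB : ∃ k, i < k ∧ x.val k j ≠ 0
      · obtain ⟨k, hk, hk0⟩ := hB
        have hk1 : y.val k j ≠ 0 := hin k j hk.le le_rfl (fun h1 => hk.ne' h1.1) ▸ hk0
        rw [(hx k j j.2 hk0).2 i hk.ne, (hy k j j.2 hk1).2 i hk.ne]
      push Not at hA hB
      let x' : SU n F := ⟨Matrix.of fun k l => if k = i ∧ l = j then 0 else x.val k l, by
        intro k l hkl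
        simp only [Matrix.of_apply]
        split_ifs
        · rfl
        · exact x.2 k l hkl⟩
      have hx' : ∀ k l, ¬ (k = i ∧ l = j) → x.val k l = x'.val k l := by
        intro k l hkl
        simp only [x', Matrix.of_apply]
        rw [if_neg hkl]
      have hx0 : x'.val i j = 0 := by simp [x']
      have hth : ∀ a : F, theta (a * x.val i j) = theta (a * y.val i j) := by
        intro a
        by_cases ha : a = 0
        · rw [ha, zero_mul, zero_mul]
        have hne : phi theta (box i j a) x' ≠ 0 := by
          apply phi_ne ht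
          · intro l hl
            rcases hl.eq_or_lt with hl | hl
            · rw [hl, hx0]
            · rw [← hx' i l (fun h1 => hl.ne h1.2), hA l hl]
          · intro k hk
            rcases hk.eq_or_lt with hk | hk
            · rw [← hk, hx0]
            · rw [← hx' k j (fun h1 => hk.ne' h1.1), hB k hk]
        have h1 := phi_shift (theta := theta) i j a x x' (fun k l _ _ hkl => hx' k l hkl)
        have h2 := phi_shift (theta := theta) i j a y x'
          (fun k l hk hl hkl => (hin k l hk hl hkl).symm.trans (hx' k l hkl))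
        rw [hx0, sub_zero] at h1 h2
        have h3 := h i j a hij ha
        rw [h1, h2] at h3
        exact mul_right_cancel₀ hne h3
      by_contra hne
      apply ht
      ext b
      have h1 := hth (b / (x.val i j - y.val i j))
      have h2 : b / (x.val i j - y.val i j) * x.val i j =
          b + b / (x.val i j - y.val i j) * y.val i j := by
        have : x.val i j - y.val i j ≠ 0 := sub_ne_zero.mpr hne
        field_simp
        ring
      rw [h2, AddChar.map_add_eq_mul] at h1
      have h3 : theta (b / (x.val i j - y.val i j) * y.val i j) ≠ 0 := by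
        intro h4
        have := theta.map_add_eq_mul (b / (x.val i j - y.val i j) * y.val i j)
          (-(b / (x.val i j - y.val i j) * y.val i j))
        rw [add_neg_cancel, AddChar.map_zero_eq_one, h4, zero_mul] at this
        exact one_ne_zero this
      rw [AddChar.one_apply]
      exact mul_right_cancel₀ h3 (h1.trans (one_mul _).symm)
  apply Subtype.ext
  ext i j
  exact key _ i j rfl

/-- The single-box supercharacters separate the superclasses. -/
theorem separate (ht : theta ≠ 1) (g h : UT n F)
    (H : ∀ (i j : Fin n) (a : F), i < j → a ≠ 0 →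
      superchar theta (box i j a) g = superchar theta (box i j a) h) : h ∈ superclass g := by
  obtain ⟨u, v, hg⟩ := exists_rook n (sub1 g)
  obtain ⟨u', v', hh⟩ := exists_rook n (sub1 h)
  have h1 := rook_eq ht _ _ hg hh (fun i j a hij ha => by
    rw [phi_act, phi_act, ← superchar_eq, ← superchar_eq, H i j a hij ha])
  refine ⟨u'⁻¹ * u, v * v'⁻¹, ?_⟩
  rw [← act_act, h1, act_act, inv_mul_cancel, mul_inv_cancel, act_one]

lemma hat_conj {chi : UT n F → ℂ} (h : IsIrr chi) (m : Module.Dual F (SU n F)) (w : UT n F) :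
    hat theta chi (m ∘ₗ act w w⁻¹) = hat theta chi m := by
  unfold hat
  refine Fintype.sum_equiv (MulAut.conj w).toEquiv _ _ fun k => ?_
  have e : (MulAut.conj w).toEquiv k = w * k * w⁻¹ := rfl
  rw [e, (irr_iff.1 h).isClass k w, sub1_conj]
  rfl

theorem andre_boxes (ht : theta ≠ 1) :
    ContainsBoxes theta (Set.range (constituents (n := n) theta)) := by
  intro i j a _ _
  obtain ⟨chi, hchi⟩ := const_nonempty ht (box i j a)
  obtain ⟨k, hk⟩ := exists_hat ht hchi.1
  have hko := (mem_const ht hchi.1 _ hk).mp hchi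
  have h1 : ∀ g, (Fintype.card (UT n F) : ℂ) * chi g =
      hat theta chi (box i j a) * superchar theta (box i j a) g := by
    intro g
    have h2 := key ht hchi.1 (box i j a) hk g
    rw [if_pos hko, conv_superchar] at h2
    rw [← h2, superchar_eq]
    unfold phi
    rw [Finset.mul_sum]
    refine Finset.sum_congr rfl fun m _ => ?_
    split_ifs with hm
    · obtain ⟨w, hw⟩ := box_conj i j a hm
      rw [← hat_conj hchi.1 (box i j a) w, ← hw]
    · rw [mul_zero]
  have hc : hat theta chi (box i j a) ≠ 0 := by
    intro h0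
    have := h1 1
    rw [h0, zero_mul] at this
    exact mul_ne_zero card_ne (irr_one_ne hchi.1) this
  have hsing : constituents theta (box i j a) = {chi} := by
    apply Set.eq_singleton_iff_unique_mem.mpr ⟨hchi, fun psi hpsi => ?_⟩
    by_contra hne
    have h2 := B_irr (irr_iff.1 hchi.1) (irr_iff.1 hpsi.1)
    rw [if_neg (Ne.symm hne)] at h2
    apply hpsi.2
    rw [finsum_eq_sum_of_fintype]
    apply mul_left_cancel₀ hc
    rw [mul_zero, Finset.mul_sum]
    simp only [← mul_assoc, ← h1]
    simp only [mul_assoc]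
    rw [← Finset.mul_sum]
    unfold B at h2
    rw [(mul_eq_zero.mp h2).resolve_left (inv_ne_zero cardG_ne), mul_zero]
  obtain ⟨d, hd, hd1⟩ := irr_one hchi.1
  refine ⟨chi, hchi.1, ⟨box i j a, hsing⟩, (d : ℝ)⁻¹, by positivity, fun g => ?_⟩
  rw [← sigma_const ht, hsing]
  unfold sigma
  rw [finsum_mem_singleton, hd1]
  have : (d : ℂ) ≠ 0 := by exact_mod_cast hd.ne'
  push_cast
  field_simp

theorem coarsest (ht : theta ≠ 1) (XX : Set (Set (UT n F → ℂ))) (KK : Set (Set (UT n F)))
    (h : IsSCT XX KK) (hb : ContainsBoxes theta XX) :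
    ∀ K ∈ KK, ∃ x : UT n F, K ⊆ superclass x := by
  intro K hK
  obtain ⟨g, hg⟩ := h.K_nonempty K hK
  refine ⟨g, fun x hx => separate ht g x fun i j a hij ha => ?_⟩
  obtain ⟨chi, h1, h2, c, hc, h3⟩ := hb i j a hij ha
  have h4 := h.const _ h2 K hK g hg x hx
  unfold sigma at h4
  rw [finsum_mem_singleton, finsum_mem_singleton] at h4
  have h5 := mul_left_cancel₀ (irr_one_ne h1) h4
  rw [h3, h3] at h5
  exact mul_left_cancel₀ (by exact_mod_cast hc.ne') h5

end Pool.Agent.H369Z.SCT
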