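import Pool.Agent.H369Z.SCT.Basic
import Pool.Agent.Helper884.IC.Compl

set_option linter.unusedSectionVars false

namespace Pool.Agent.H369Z.SCT

open scoped Classical
open Pool.Agent.Helper884.IC

section General

variable {G : Type} [Group G] [Fintype G]

lemma irr_iff {chi : G → ℂ} : IsIrr chi ↔ IsIrrChar chi := Iff.rfl

lemma irr_one {chi : G → ℂ} (h : IsIrr chi) : ∃ d : ℕ, 0 < d ∧ chi 1 = d := by
  have h1 := B_irr (irr_iff.1 h) (irr_iff.1 h)
  rw [if_pos rfl] at h1
  obtain ⟨V, _, _, _, rho, hr, rfl⟩ := h
  refine ⟨Module.finrank ℂ V, ?_, rho.char_one⟩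
  by_contra h0
  have h2 : Module.finrank ℂ V = 0 := by omega
  have : Subsingleton V := Module.finrank_zero_iff.mp h2
  have h3 : ∀ g, rho.character g = 0 := by
    intro g
    have : rho g = 0 := Subsingleton.elim _ _
    simp [Representation.character, this]
  simp [B, h3] at h1

lemma irr_one_ne {chi : G → ℂ} (h : IsIrr chi) : chi 1 ≠ 0 := by
  obtain ⟨d, hd, e⟩ := irr_one h
  rw [e]
  exact_mod_cast hd.ne'

lemma conv_irr {chi : G → ℂ} (h : IsIrr chi) (e : G → ℂ) (he : IsClass e) :
    ∃ c : ℂ, ∀ g, ∑ k, chi k * e (k⁻¹ * g) = c * chi g := by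
  have h1 := irr_one_ne h
  obtain ⟨V, _, _, _, rho, hr, rfl⟩ := h
  set d : G → ℂ := fun g => if g = 1 then 1 else 0 with hd
  set c : ℂ := (Nat.card G : ℂ) * B e rho.character / rho.character 1 with hc
  have hcl : IsClass (e - c • d) := by
    intro g y
    simp only [Pi.sub_apply, Pi.smul_apply, he g y, hd]
    congr 2
    apply if_congr _ rfl rfl
    constructor
    · intro h2
      have : g = y⁻¹ * (y * g * y⁻¹) * y := by group
      rw [this, h2]
      group
    · rintro rfl
      group
  have hB : B (e - c • d) rho.character = 0 := by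
    rw [B_sub_left, B_smul_left]
    have : B d rho.character = (Nat.card G : ℂ)⁻¹ * rho.character 1 := by
      unfold B
      congr 1
      rw [Finset.sum_eq_single 1]
      · simp [hd]
      · intro b _ hb
        simp [hd, hb]
      · intro h2
        exact absurd (Finset.mem_univ _) h2
    rw [this, hc]
    have := cardG_ne (G := G)
    field_simp
    ring
  have hT := Top_zero_of_irr rho (e - c • d) hcl hB
  have hT2 : (∑ g : G, e g • rho g⁻¹) = c • LinearMap.id := by
    unfold Pool.Agent.Helper884.IC.Top at hT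
    simp only [Pi.sub_apply, Pi.smul_apply, sub_smul, Finset.sum_sub_distrib] at hT
    rw [sub_eq_zero] at hT
    rw [hT, Finset.sum_eq_single 1]
    · simp [hd]
      rfl
    · intro b _ hb
      simp [hd, hb]
    · intro h2
      exact absurd (Finset.mem_univ _) h2
  refine ⟨c, fun g => ?_⟩
  have h3 : LinearMap.trace ℂ V (rho g * ∑ k : G, e k • rho k⁻¹) = c * rho.character g := by
    rw [hT2]
    simp [Representation.character, ← Module.End.one_eq_id]
  rw [← h3, Finset.mul_sum, map_sum]
  symm
  refine Fintype.sum_equiv ((Equiv.inv G).trans (Equiv.mulLeft g)) _ _ fun k => ?_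
  simp [Representation.character, mul_comm]

lemma count_le {A B α β : Type} [Fintype A] [Fintype B] (p : A → α) (q : B → β) (k : A → B → ℂ)
    (hli : ∀ c : A → ℂ, (∀ b, ∑ a, c a * k a b = 0) → ∀ a, c a = 0)
    (hinv : ∀ c : α → ℂ, ∀ b b', q b = q b' → ∑ a, c (p a) * k a b = ∑ a, c (p a) * k a b') :
    (Set.range p).ncard ≤ (Set.range q).ncard := by
  haveI : Fintype (Set.range p) := Fintype.ofFinite _
  haveI : Fintype (Set.range q) := Fintype.ofFinite _
  let Φ : (Set.range p → ℂ) →ₗ[ℂ] (Set.range q → ℂ) :=
    { toFun := fun c b => ∑ a, c ⟨p a, a, rfl⟩ * k a b.2.choose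
      map_add' := by
        intro c c'
        funext b
        simp [add_mul, Finset.sum_add_distrib]
      map_smul' := by
        intro t c
        funext b
        simp [Finset.mul_sum, mul_assoc] }
  have hinj : Function.Injective Φ := by
    rw [injective_iff_map_eq_zero]
    intro c hc
    let c' : α → ℂ := fun x => if h : x ∈ Set.range p then c ⟨x, h⟩ else 0
    have hc' : ∀ a, c' (p a) = c ⟨p a, a, rfl⟩ := by
      intro a
      simp only [c']
      rw [dif_pos ⟨a, rfl⟩]
    have h0 : ∀ a, c' (p a) = 0 := by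
      apply hli (fun a => c' (p a))
      intro b
      have h1 := congrFun hc ⟨q b, b, rfl⟩
      have h2 : q (Exists.choose (⟨b, rfl⟩ : q b ∈ Set.range q)) = q b :=
        Exists.choose_spec (⟨b, rfl⟩ : q b ∈ Set.range q)
      rw [← hinv c' _ _ h2]
      simp only [hc']
      exact h1
    funext x
    obtain ⟨x, a, rfl⟩ := x
    rw [← hc', h0]
    rfl
  have h := LinearMap.finrank_le_finrank_of_injective hinj
  rw [Module.finrank_fintype_fun_eq_card, Module.finrank_fintype_fun_eq_card] at h
  rw [← Nat.card_coe_set_eq, ← Nat.card_coe_set_eq, Nat.card_eq_fintype_card,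
    Nat.card_eq_fintype_card]
  exact h

end General

variable {n : ℕ} {F : Type} [Field F] [Finite F] {theta : AddChar F ℂ}

/-- Fourier coefficient -/
noncomputable def hat (theta : AddChar F ℂ) (f : UT n F → ℂ) (m : Module.Dual F (SU n F)) : ℂ :=
  ∑ k, f k * theta (-(m (sub1 k)))

lemma isClass_superchar (l : Module.Dual F (SU n F)) : IsClass (superchar theta l) := by
  intro g y
  rw [superchar_eq, superchar_eq, sub1_conj, phi_act]

lemma conv_superchar (f : UT n F → ℂ) (l : Module.Dual F (SU n F)) (g : UT n F) :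
    ∑ k, f k * superchar theta l (k⁻¹ * g) =
      ∑ m, if m ∈ orbit l then hat theta f m * theta (m (sub1 g)) else 0 := by
  simp only [superchar_eq, sub1_inv_mul, phi_act]
  unfold phi hat
  simp only [Finset.mul_sum]
  rw [Finset.sum_comm]
  refine Finset.sum_congr rfl fun m _ => ?_
  split_ifs with h
  · rw [Finset.sum_mul]
    refine Finset.sum_congr rfl fun k _ => ?_
    rw [map_sub, sub_eq_neg_add, AddChar.map_add_eq_mul, mul_assoc]
  · simp

lemma hat_sum (ht : theta ≠ 1) (c : Module.Dual F (SU n F) → ℂ) (k : Module.Dual F (SU n F)) :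
    hat theta (fun g => ∑ m, c m * theta (m (sub1 g))) k = Fintype.card (UT n F) * c k := by
  unfold hat
  simp only [Finset.sum_mul]
  rw [Finset.sum_comm]
  have h1 : ∀ m : Module.Dual F (SU n F),
      ∑ g : UT n F, c m * theta (m (sub1 g)) * theta (-(k (sub1 g))) =
        if m = k then (Fintype.card (UT n F) : ℂ) * c k else 0 := by
    intro m
    have h2 := sum_SU ht (m - k)
    rw [← sum_U (fun y => theta ((m - k) y))] at h2
    simp only [mul_assoc]
    rw [← Finset.mul_sum]
    have h3 : ∀ g : UT n F, theta (m (sub1 g)) * theta (-(k (sub1 g))) =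
        theta ((m - k) (sub1 g)) := by
      intro g
      rw [← AddChar.map_add_eq_mul, LinearMap.sub_apply, sub_eq_add_neg]
    simp only [h3]
    rw [h2]
    by_cases h : m = k
    · subst h
      simp [mul_comm]
    · simp [h, sub_eq_zero]
  simp only [h1]
  simp

lemma inversion (ht : theta ≠ 1) (f : UT n F → ℂ) (g : UT n F) :
    ∑ m, hat theta f m * theta (m (sub1 g)) = Fintype.card (UT n F) * f g := by
  unfold hat
  simp only [Finset.sum_mul]
  rw [Finset.sum_comm]
  have h1 : ∀ k : UT n F,
      ∑ m : Module.Dual F (SU n F), f k * theta (-(m (sub1 k))) * theta (m (sub1 g)) =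
        if k = g then (Fintype.card (UT n F) : ℂ) * f g else 0 := by
    intro k
    have h2 := sum_dual ht (sub1 g - sub1 k)
    simp only [mul_assoc]
    rw [← Finset.mul_sum]
    have h3 : ∀ m : Module.Dual F (SU n F), theta (-(m (sub1 k))) * theta (m (sub1 g)) =
        theta (m (sub1 g - sub1 k)) := by
      intro m
      rw [← AddChar.map_add_eq_mul, map_sub, sub_eq_neg_add]
    simp only [h3]
    rw [h2]
    by_cases h : k = g
    · subst h
      simp [mul_comm]
    · have : sub1 g - sub1 k ≠ 0 := fun h4 => h (sub1_inj (sub_eq_zero.mp h4)).symm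
      simp [h, this]
  simp only [h1]
  simp

lemma exists_hat (ht : theta ≠ 1) {chi : UT n F → ℂ} (h : IsIrr chi) :
    ∃ m, hat theta chi m ≠ 0 := by
  by_contra hn
  push Not at hn
  have h1 := inversion ht chi 1
  simp only [hn, zero_mul, Finset.sum_const_zero] at h1
  exact mul_ne_zero card_ne (irr_one_ne h) h1.symm

lemma key (ht : theta ≠ 1) {chi : UT n F → ℂ} (h : IsIrr chi) (l : Module.Dual F (SU n F))
    {k : Module.Dual F (SU n F)} (hk : hat theta chi k ≠ 0) (g : UT n F) :
    ∑ x, chi x * superchar theta l (x⁻¹ * g) =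
      if k ∈ orbit l then Fintype.card (UT n F) * chi g else 0 := by
  obtain ⟨c, hc⟩ := conv_irr h _ (isClass_superchar (theta := theta) l)
  have h1 := hat_sum ht (fun m => if m ∈ orbit l then hat theta chi m else 0) k
  have h2 : (fun g : UT n F => ∑ m : Module.Dual F (SU n F),
      (if m ∈ orbit l then hat theta chi m else 0) * theta (m (sub1 g))) = fun g => c * chi g := by
    funext g
    rw [← hc, conv_superchar]
    simp only [ite_mul, zero_mul]
  rw [h2] at h1
  have h3 : hat theta (fun g => c * chi g) k = c * hat theta chi k := by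
    unfold hat
    simp only [Finset.mul_sum, mul_assoc]
  rw [h3] at h1
  rw [hc]
  split_ifs with hm
  · rw [if_pos hm] at h1
    rw [mul_right_cancel₀ hk h1]
  · rw [if_neg hm, mul_zero] at h1
    rw [(mul_eq_zero.mp h1).resolve_right hk, zero_mul]

lemma pair_eq (ht : theta ≠ 1) {chi : UT n F → ℂ} (h : IsIrr chi) (l : Module.Dual F (SU n F))
    {k : Module.Dual F (SU n F)} (hk : hat theta chi k ≠ 0) :
    ∑ g, superchar theta l g * chi g⁻¹ =
      if k ∈ orbit l then Fintype.card (UT n F) * chi 1 else 0 := by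
  rw [← key ht h l hk 1]
  refine Fintype.sum_equiv (Equiv.inv _) _ _ fun x => ?_
  simp [mul_comm]

lemma mem_const (ht : theta ≠ 1) {chi : UT n F → ℂ} (h : IsIrr chi) (l : Module.Dual F (SU n F))
    {k : Module.Dual F (SU n F)} (hk : hat theta chi k ≠ 0) :
    chi ∈ constituents theta l ↔ k ∈ orbit l := by
  unfold constituents
  rw [Set.mem_setOf_eq, finsum_eq_sum_of_fintype, pair_eq ht h l hk]
  constructor
  · rintro ⟨_, h1⟩
    by_contra h2
    exact h1 (if_neg h2)
  · intro h1
    refine ⟨h, ?_⟩
    rw [if_pos h1]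
    exact mul_ne_zero card_ne (irr_one_ne h)

lemma sigma_const (ht : theta ≠ 1) (l : Module.Dual F (SU n F)) (g : UT n F) :
    sigma (constituents theta l) g = superchar theta l g := by
  have h1 := congrFun (expand _ (isClass_superchar (theta := theta) l)) g
  rw [h1]
  unfold sigma
  have hfin : (constituents theta l).Finite :=
    (irr_finite (G := UT n F)).subset (fun _ h => h.1)
  rw [finsum_mem_eq_finite_toFinset_sum _ hfin, Finset.sum_apply]
  symm
  have hsub : hfin.toFinset ⊆ Irr (UT n F) := by
    intro x hx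
    exact mem_Irr.mpr (hfin.mem_toFinset.mp hx).1
  rw [← Finset.sum_subset hsub]
  · refine Finset.sum_congr rfl fun chi hchi => ?_
    have h2 := hfin.mem_toFinset.mp hchi
    obtain ⟨k, hk⟩ := exists_hat ht h2.1
    have h3 := (mem_const ht h2.1 l hk).mp h2
    have h4 := pair_eq ht h2.1 l hk
    rw [if_pos h3] at h4
    unfold B
    rw [h4, Pi.smul_apply, smul_eq_mul, Nat.card_eq_fintype_card, ← mul_assoc,
      inv_mul_cancel₀ card_ne, one_mul]
  · intro chi hchi hn
    have h2 : IsIrr chi := mem_Irr.mp hchi
    obtain ⟨k, hk⟩ := exists_hat ht h2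
    have h3 : k ∉ orbit l := fun h5 => hn (hfin.mem_toFinset.mpr ((mem_const ht h2 l hk).mpr h5))
    have h4 := pair_eq ht h2 l hk
    rw [if_neg h3] at h4
    unfold B
    rw [h4]
    simp

lemma superchar_one_ne (l : Module.Dual F (SU n F)) : superchar theta l 1 ≠ 0 := by
  rw [superchar_eq, sub1_one]
  unfold phi
  simp only [map_zero, AddChar.map_zero_eq_one, Finset.sum_boole]
  exact_mod_cast (Finset.card_pos.mpr ⟨l, by simp [mem_orbit_self]⟩).ne'

lemma const_nonempty (ht : theta ≠ 1) (l : Module.Dual F (SU n F)) :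
    (constituents theta l).Nonempty := by
  rw [Set.nonempty_iff_ne_empty]
  intro h
  have h1 := sigma_const ht l 1
  rw [h] at h1
  apply superchar_one_ne (theta := theta) l
  rw [← h1]
  simp [sigma]

lemma const_eq_iff (ht : theta ≠ 1) (l m : Module.Dual F (SU n F)) :
    constituents theta m = constituents theta l ↔ m ∈ orbit l := by
  constructor
  · intro h
    obtain ⟨chi, hchi⟩ := const_nonempty ht l
    obtain ⟨k, hk⟩ := exists_hat ht hchi.1
    have h1 := (mem_const ht hchi.1 l hk).mp hchi
    have h2 := (mem_const ht hchi.1 m hk).mp (h ▸ hchi)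
    exact orbit_trans h1 (orbit_symm h2)
  · intro h
    unfold constituents superchar
    rw [orbit_eq h]

lemma card_eq (ht : theta ≠ 1) :
    (Set.range (constituents (n := n) theta)).ncard =
      (Set.range (superclass : UT n F → Set (UT n F))).ncard := by
  apply le_antisymm
  · apply count_le _ _ (fun m g => theta (m (sub1 g)))
    · intro c hc a
      have h1 := hat_sum ht c a
      simp only [hc] at h1
      have h2 : hat theta (fun _ : UT n F => (0 : ℂ)) a = 0 := by simp [hat]
      rw [h2] at h1
      exact (mul_eq_zero.mp h1.symm).resolve_left card_ne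
    · intro c b b' hb
      obtain ⟨u, v, e⟩ : b ∈ superclass b' := hb ▸ mem_superclass_self b
      rw [e]
      refine Fintype.sum_equiv (dualE u v) _ _ fun m => ?_
      have : constituents theta (dualE u v m) = constituents theta m :=
        (const_eq_iff ht _ _).mpr ⟨u, v, rfl⟩
      rw [this]
      rfl
  · apply count_le _ _ (fun g m => theta (m (sub1 g)))
    · intro c hc a
      have h1 := inversion ht c a
      have h2 : ∀ m, hat theta c m = 0 := by
        intro m
        have := hc (-m)
        simpa [hat] using this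
      simp only [h2, zero_mul, Finset.sum_const_zero] at h1
      exact (mul_eq_zero.mp h1.symm).resolve_left card_ne
    · intro c b b' hb
      obtain ⟨u, v, e⟩ := (const_eq_iff ht _ _).mp hb
      rw [e]
      refine Fintype.sum_equiv (sub1E.trans ((actE u v).trans sub1E.symm)) _ _ fun g => ?_
      have h1 : sub1 ((sub1E.trans ((actE u v).trans sub1E.symm)) g) = act u v (sub1 g) :=
        sub1E.apply_symm_apply _
      have h2 : superclass ((sub1E.trans ((actE u v).trans sub1E.symm)) g) = superclass g :=
        superclass_eq ⟨u, v, h1⟩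
      rw [h1, h2]
      rfl

theorem andre_isSCT (ht : theta ≠ 1) :
    IsSCT (Set.range (constituents (n := n) theta)) (Set.range superclass) where
  X_nonempty := by
    rintro _ ⟨l, rfl⟩
    exact const_nonempty ht l
  X_irr := by
    rintro _ ⟨l, rfl⟩ psi h
    exact h.1
  X_cover := by
    intro psi h
    obtain ⟨k, hk⟩ := exists_hat ht h
    refine ⟨constituents theta k, ⟨⟨k, rfl⟩, (mem_const ht h k hk).mpr (mem_orbit_self k)⟩, ?_⟩
    rintro _ ⟨⟨l, rfl⟩, h1⟩
    exact (const_eq_iff ht _ _).mpr (orbit_symm ((mem_const ht h l hk).mp h1))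
  K_nonempty := by
    rintro _ ⟨x, rfl⟩
    exact ⟨x, mem_superclass_self x⟩
  K_cover := by
    intro g
    refine ⟨superclass g, ⟨⟨g, rfl⟩, mem_superclass_self g⟩, ?_⟩
    rintro _ ⟨⟨x, rfl⟩, h1⟩
    exact (superclass_eq h1).symm
  card_eq := card_eq ht
  one_mem := ⟨1, superclass_one⟩
  const := by
    rintro _ ⟨l, rfl⟩ _ ⟨x, rfl⟩ g ⟨u, v, hg⟩ h ⟨u', v', hh⟩
    rw [sigma_const ht, sigma_const ht, superchar_eq, superchar_eq, hg, hh, phi_act, phi_act]

end Pool.Agent.H369Z.SCT
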